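import Pool.Agent.H91.QS.Defs
import Pool.Agent.H95.M.Q193_LT_Sums
import Pool.Agent.H95.M.Q193_LT_Crit
import Pool.Agent.H95.M.Q68_OV_Finite

/-!
# Systems of quadratic equations, motives and comparison maps: definitions
-/

set_option autoImplicit false

open CategoryTheory CategoryTheory.Limits AlgebraicGeometry MvPolynomial Pool.Agent.Y116.UV
  Pool.Agent.Q193.LT Pool.Agent.W5h68.SP Pool.Agent.H91.QS

universe v u w w'

namespace Pool.Agent.H95.QF

/-- `X` is the closed subscheme of an affine space over `k` given by `m` equations of degree at most
two. -/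
def IsQuadratic {k : Type} [Field k] (m : ℕ) (X : Sch k) : Prop :=
  ∃ (N : ℕ) (q : Fin m → MvPolynomial (Fin N) k), (∀ l, (q l).totalDegree ≤ 2) ∧
    X = aff k (Zeros k (Fin N) (Set.range q))

section motives

variable {k : Type} [Field k] {M : Type u} [Category.{v} M]

/-- What is used about a category of motives over the field `k` and the graded objects `D.H i X` of the
weight filtration of the cohomology with compact supports, besides `IsMotives`: for the coverings
`s ^ d = u` of `Spec A`, `u` a unit, the cohomology of `Spec A` is a direct factor of the cohomology of the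
covering. -/
structure IsCyclicMotives [Abelian M] (D : CompactData k M) : Prop extends IsMotives D where
  cyclic : ∀ (A : Type) [CommRing A] [Algebra k A] [Algebra.FiniteType k A] (d : ℕ) (u : A), 0 < d →
    IsUnit u → ∀ n, ∃ (s : D.H n (aff k A) ⟶ D.H n (aff k (Cyc A d u)))
      (r : D.H n (aff k (Cyc A d u)) ⟶ D.H n (aff k A)), s ≫ r = 𝟙 _

/-- The objects `H^i_c(X)` for the schemes `X` with the property `G`. -/
def Of (D : CompactData k M) (G : Sch k → Prop) (N : M) : Prop :=
  ∃ (X : Sch k) (i : ℤ), G X ∧ N = D.H i X

end motives

/-- What is used about the groups `A^{n,i}(X)`, `B^{n,i}(X)` of the weight complexes with compact supports,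
with coefficients in a `ℚ`-algebra `E`, and about the maps between them, besides `IsWeightPair`: for the
coverings `s ^ d = u` of `Spec A`, `u` a unit, the map for `Spec A` is a direct factor of the map for the
covering. -/
structure IsCyclicPair {k : Type} [Field k] {E : Type w'} [CommRing E]
    (C : PairData.{w} k (ℤ × ℤ) E) : Prop where
  pair : IsWeightPair C
  cyclic : ∀ (A : Type) [CommRing A] [Algebra k A] [Algebra.FiniteType k A] (d : ℕ) (u : A), 0 < d →
    IsUnit u → ∀ j, FactorAt C j (aff k A) j (aff k (Cyc A d u))

end Pool.Agent.H95.QF
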