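import Pool.Agent.H95.QF.Defs
import Pool.Agent.H91.QS.Main
import Pool.Agent.H95.DC.FinL
import Pool.Agent.H95.M.Q68_OV_One
import Pool.Agent.H95.M.Q193_LT_Crit

/-!
# Systems of quadratic equations, motives and comparison maps
-/

set_option autoImplicit false
set_option linter.unusedSectionVars false

open CategoryTheory CategoryTheory.Limits AlgebraicGeometry MvPolynomial Pool.Agent.Y116.UV
  Pool.Agent.Z125.UN Pool.Agent.Q193.LT Pool.Agent.Q49.WU Pool.Agent.Q68.OV Pool.Agent.W5h68.SP
  Pool.Agent.W5h93.QD Pool.Agent.H91.QS Pool.Agent.H95.DC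

universe v u w w'

namespace Pool.Agent.H95.QF

section motives

variable {k : Type} [Field k] {M : Type u} [Category.{v} M] [Abelian M] {D : CompactData k M}
  {S : M → Prop}

lemma serre_retract (hS : IsTateSerre D S) {X Y : M} (s : X ⟶ Y) (r : Y ⟶ X) (h : s ≫ r = 𝟙 X)
    (hY : S Y) : S X := by
  have : Mono s := mono_of_mono_fac h
  exact hS.toIsSerre.of_mono s hY

lemma coverings_coh (hD : IsCyclicMotives D) (hS : IsTateSerre D S) :
    Coverings fun X : Sch k => ∀ n, S (D.H n X) := fun A _ _ _ d u hd hu h n => by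
  obtain ⟨s, r, hs⟩ := hD.cyclic A d u hd hu n
  exact serre_retract hS s r hs (h n)

variable [PerfectField k]

/-- A Serre class which contains the motives of the smooth projective schemes of dimension at most `n`
contains those of the schemes in `Built k n`. -/
theorem built_serre (hD : IsCyclicMotives D) (hS : IsTateSerre D S) {n : ℕ}
    (h : ∀ Y : Sch k, SmoothProj Y → topologicalKrullDim Y.left ≤ n → ∀ i, S (D.H i Y)) {X : Sch k}
    (hX : Built k n X) (i : ℤ) : S (D.H i X) := by
  have h2 : ∀ Y : Sch k, FT True Y → topologicalKrullDim Y.left ≤ n → ∀ i, S (D.H i Y) :=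
    fun Y hY hn => hD.generated n _ hS h Y hY hn
  have h0 : ∀ i, S (D.H i (aff k k)) := by
    refine h2 (aff k k) (ft_aff True) ?_
    rw [topDim_aff, ringKrullDim_eq_zero_of_field]
    exact_mod_cast Nat.zero_le n
  exact of_built (bnd_compact hD.compact hS h0) (coverings_coh hD hS)
    (fun A _ _ _ hA => h2 _ (ft_aff True) (by rw [topDim_aff]; exact hA)) hX i

/-- The motives of the schemes in `Built k n`. -/
theorem built_factor (hD : IsCyclicMotives D) {n : ℕ} {X : Sch k} (hX : Built k n X) (i : ℤ) :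
    FactorOfSum D (OfProj D n) (D.H i X) :=
  built_serre hD (gen_serre hD.compact hD.semisimple) (fun Y hY hn i =>
    FactorOfSum.self hD.compact ⟨Y, i, hY, hn, rfl⟩) hX i

/-- The point is given by quadratic equations. -/
lemma quadratic_point {m : ℕ} : ∃ X : Sch k, IsQuadratic m X ∧ FT True X ∧
    Nonempty (X ≅ aff k k) := by
  refine ⟨aff k (Zeros k (Fin 0) (Set.range fun _ : Fin m => (0 : MvPolynomial (Fin 0) k))),
    ⟨0, fun _ => 0, fun _ => by simp, rfl⟩, ft_aff True, ?_⟩
  have h1 : Ideal.span (Set.range fun _ : Fin m => (0 : MvPolynomial (Fin 0) k)) = ⊥ := by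
    rw [Ideal.span_eq_bot]
    rintro _ ⟨_, rfl⟩
    rfl
  have e : Zeros k (Fin 0) (Set.range fun _ : Fin m => (0 : MvPolynomial (Fin 0) k)) ≃ₐ[k] k :=
    ((Ideal.quotientEquivAlgOfEq k h1).trans (AlgEquiv.quotientBot k _)).trans
      (isEmptyAlgEquiv k (Fin 0))
  exact ⟨(affIso e).symm⟩

/-- **The motives of the smooth projective schemes of dimension at most `n` are generated by those of the
affine schemes given by `n + 2` quadratic equations.** -/
theorem proj_factor (hD : IsCyclicMotives D) {n : ℕ} {X : Sch k} (hX : FT True X)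
    (hn : topologicalKrullDim X.left ≤ n) (i : ℤ) :
    FactorOfSum D (Of D (IsQuadratic (n + 2))) (D.H i X) := by
  have hS : IsTateSerre D (FactorOfSum D (Of D (IsQuadratic (n + 2)))) :=
    gen_serre hD.compact hD.semisimple
  have h0 : ∀ i, FactorOfSum D (Of D (IsQuadratic (n + 2))) (D.H i (aff k k)) := by
    intro i
    obtain ⟨Z, h1, h2, h3⟩ := quadratic_point (k := k) (m := n + 2)
    obtain ⟨e⟩ := hD.compact.iso h2 h3 i
    exact hS.toIsSerre.iso e (FactorOfSum.self hD.compact ⟨Z, i, h1, rfl⟩)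
  exact dim_of_quad (bnd_compact hD.compact hS h0) (fun N q hq i =>
    FactorOfSum.self hD.compact ⟨_, i, ⟨N, q, hq, rfl⟩, rfl⟩) X hX hn i

variable {P : M → Prop} (hP : ∀ {X Y : M} (i : X ⟶ Y) (r : Y ⟶ X), i ≫ r = 𝟙 X → P Y → P X)

include hP

/-- Finite direct sums: smooth projective schemes of dimension at most `n` and `Built k n`. -/
theorem sums_built (hD : IsCyclicMotives D) (n : ℕ) :
    SumsHave D (OfProj D n) P ↔ SumsHave D (Of D (Built k n)) P := by
  constructor
  · refine sumsHave_of_gen hD.compact hD.semisimple hP fun N hN => ?_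
    obtain ⟨X, i, hX, rfl⟩ := hN
    exact built_factor hD hX i
  · refine sumsHave_of_gen hD.compact hD.semisimple hP fun N hN => ?_
    obtain ⟨Y, i, hY, hn, rfl⟩ := hN
    have h0 : ∀ i, FactorOfSum D (Of D (Built k n)) (D.H i (aff k k)) := fun i =>
      FactorOfSum.self hD.compact ⟨_, i, built_point n, rfl⟩
    exact of_affine_dim (bnd_compact hD.compact (gen_serre hD.compact hD.semisimple) h0)
      (fun A _ _ _ hA i => FactorOfSum.self hD.compact ⟨_, i, .dim A hA, rfl⟩) Y hY.ft hn i

/-- Finite direct sums: `n + 2` quadratic equations and smooth projective schemes of dimension at most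
`n`. -/
theorem sums_quadratic (hD : IsCyclicMotives D) (n : ℕ)
    (h : SumsHave D (Of D (IsQuadratic (n + 2))) P) : SumsHave D (OfProj D n) P := by
  refine sumsHave_of_gen hD.compact hD.semisimple hP (fun N hN => ?_) h
  obtain ⟨Y, i, hY, hn, rfl⟩ := hN
  exact proj_factor hD hY.ft hn i

end motives

section pairs

variable {F : Type} [Field F]

lemma coverings_pair {E : Type w'} [CommRing E] {C : PairData.{w} F (ℤ × ℤ) E}
    (hC : IsCyclicPair C) : Coverings (BijAll C) := fun A _ _ _ d u hd hu h j =>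
  (hC.cyclic A d u hd hu j).bij (h j)

/-- the zero scheme of a family of polynomials of degree at most two in any finite set of variables -/
lemma quadratic_iso {P : Sch F → Prop} {σ : Type} [Fintype σ] {m : ℕ}
    (hi : ∀ {X Y : Sch F}, FT True X → Nonempty (X ≅ Y) → P X → P Y)
    (q : Fin m → MvPolynomial σ F) (hq : ∀ l, (q l).totalDegree ≤ 2)
    (h : ∀ X, IsQuadratic m X → P X) : P (aff F (MvPolynomial σ F ⧸ Ideal.span (Set.range q))) := by
  let e := Fintype.equivFin σ
  let q' : Fin m → MvPolynomial (Fin (Fintype.card σ)) F := fun l => rename e (q l)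
  have h1 : P (aff F (Zeros F (Fin (Fintype.card σ)) (Set.range q'))) :=
    h _ ⟨_, q', fun l => (totalDegree_rename_le e (q l)).trans (hq l), rfl⟩
  have h2 : Ideal.span (Set.range q) =
      (Ideal.span (Set.range q')).map ((renameEquiv F e).symm : _ →+* MvPolynomial σ F) := by
    rw [Ideal.map_span, ← Set.range_comp]
    congr 1
    apply congrArg
    funext l
    exact ((renameEquiv F e).symm_apply_apply (q l)).symm
  exact hi (ft_aff True) ⟨(affIso (Ideal.quotientEquivAlg _ _ (renameEquiv F e).symm h2)).symm⟩ h1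

/-- the system of quadratic equations of a trilinear form -/
lemma quadratic_form (t : Form F) (N : ℤ) : ∃ X : Sch F, IsQuadratic t.a X ∧
    ∀ Q : ℤ → Sch F → Prop, WUni True Q → Q N X → Q (N + (t.a - 1)) t.hyp := by
  let σ := Fin t.b ⊕ Fin t.c
  let e := Fintype.equivFin σ
  let q : Fin t.a → MvPolynomial σ F := fun i => bil (Fin t.b) (Fin t.c) (t.T i)
  let q' : Fin t.a → MvPolynomial (Fin (Fintype.card σ)) F := fun l => rename e (q l)
  have hq : ∀ l, (q l).totalDegree ≤ 2 := by
    intro l
    change (bil (Fin t.b) (Fin t.c) (t.T l)).totalDegree ≤ 2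
    rw [bil_apply]
    refine (totalDegree_finsetSum_le fun j _ => ?_)
    refine (totalDegree_finsetSum_le fun i _ => ?_)
    refine (totalDegree_mul _ _).trans ?_
    have h1 : (C (t.T l j i) * X (Sum.inl j) : MvPolynomial σ F).totalDegree ≤ 1 := by
      refine (totalDegree_mul _ _).trans ?_
      rw [totalDegree_C, zero_add]
      exact (totalDegree_X _).le
    have h2 : (X (Sum.inr i) : MvPolynomial σ F).totalDegree ≤ 1 := (totalDegree_X _).le
    omega
  refine ⟨aff F (Zeros F (Fin (Fintype.card σ)) (Set.range q')),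
    ⟨_, q', fun l => (totalDegree_rename_le e (q l)).trans (hq l), rfl⟩, fun Q hQ h => ?_⟩
  have h2 : Ideal.span (Set.range q) =
      (Ideal.span (Set.range q')).map ((renameEquiv F e).symm : _ →+* MvPolynomial σ F) := by
    rw [Ideal.map_span, ← Set.range_comp]
    congr 1
    apply congrArg
    funext l
    exact ((renameEquiv F e).symm_apply_apply (q l)).symm
  have h3 : Q N (aff F (MvPolynomial σ F ⧸ Ideal.span (Set.range q))) :=
    hQ.iso N (ft_aff True)
      ⟨(affIso (Ideal.quotientEquivAlg _ _ (renameEquiv F e).symm h2)).symm⟩ h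
  have h4 : Q N (aff F (MvPolynomial σ F)) :=
    hQ.iso N (ft_aff True) ⟨(affIso (renameEquiv F (Fintype.equivFin σ).symm)).symm⟩
      (hQ.space N _)
  exact hQ.iso _ (ft_aff True) ⟨(affIso (hypEquiv t.T).symm).symm⟩
    (Pool.Agent.Q49.WU.to_jou hQ q h4 h3)

/-- **Finitely many systems of quadratic equations, with one index.** -/
theorem quadratic_at (N : ℤ) (X : Sch F) (hX : FT True X) :
    ∃ L : List (Sch F), (∀ Y ∈ L, ∃ m, IsQuadratic m Y) ∧
      ∀ Q : ℤ → Sch F → Prop, WUni True Q → (∀ Y ∈ L, Q N Y) → Q N X := by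
  obtain ⟨L, hL⟩ := reachedAt N X hX
  choose f h1 h2 using fun t : Form F => quadratic_form t N
  refine ⟨L.map f, fun Y hY => ?_, fun Q hQ h => hL Q hQ fun t ht =>
    h2 t Q hQ (h _ (List.mem_map_of_mem ht))⟩
  obtain ⟨t, _, rfl⟩ := List.mem_map.mp hY
  exact ⟨_, h1 t⟩

variable [PerfectField F]

/-- **The classes of one smooth projective scheme, and finitely many systems of quadratic
equations.** -/
theorem reach_quad {S : Sch F} (hS : SmoothProj S) {n : ℕ}
    (hn : topologicalKrullDim S.left ≤ n) (n1 : ℕ) (m0 : ℤ) :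
    ∃ L L' : List (Sch F), (∀ X ∈ L, IsQuadratic (n + 2) X) ∧ (∀ X ∈ L', ∃ m, IsQuadratic m X) ∧
      ∀ (E : Type w') [CommRing E] (D : Reach.{w, w', u} F E S m0)
        (C : PairData.{w} F (ℤ × ℤ) E), IsReach D → IsCyclicPair C → WeightGen C →
        (∀ Y, SmoothProj Y → ∀ m, (BijAt C Prod.fst m Y ↔ Closed D m Y)) →
        (∀ Y : Sch F, SmoothProj Y → topologicalKrullDim Y.left ≤ n1 → BijAll C Y) →
        (Holds D ↔ ∀ X ∈ L, BijAll C X) ∧
        (Holds D ↔ ∀ X ∈ L', BijAt C Prod.fst m0 X) ∧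
        (Holds D ↔ ∀ X : Sch F, Built F n X → BijAll C X) ∧
        (Holds D → ∀ X : Sch F, FT True X → BijAll C X) ∧
        (∀ X : Sch F, Built F n1 X → BijAll C X) := by
  have hlist : Lst (fun (i : {Q : Sch F → Prop // Bnd True Q}) => i.1) (IsQuadratic (n + 2)) S :=
    dim_of_quad (bnd_lst fun i => i.2) (fun N q hq => lst_self ⟨N, q, hq, rfl⟩) S hS.ft hn
  obtain ⟨L, hL, hLS⟩ := hlist
  obtain ⟨L', hL', hLS'⟩ := quadratic_at m0 S hS.ft
  refine ⟨L, L', hL, hL', ?_⟩
  intro E _ D C hD hC hg bij low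
  have point : BijAll C (aff F F) := by
    refine hg n1 low (aff F F) (ft_aff True) ?_
    rw [topDim_aff, ringKrullDim_eq_zero_of_field]
    exact_mod_cast Nat.zero_le n1
  have hB := bnd_pair hC.pair point
  have hlow : ∀ X : Sch F, Built F n1 X → BijAll C X := fun X hX =>
    of_built hB (coverings_pair hC) (fun A _ _ _ hA => hg n1 low _ (ft_aff True)
      (by rw [topDim_aff]; exact hA)) hX
  have hall' : ∀ X : Sch F, BijAll C X ↔ ∀ m, BijAt C Prod.fst m X :=
    fun X => ⟨fun h _ j _ => h j, fun h j => h j.1 j rfl⟩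
  have hst' : Holds D → ∀ Y, SmoothProj Y → BijAll C Y := fun h Y hY =>
    (hall' Y).mpr fun m => (bij Y hY m).mpr fun c x hx => hD.act_mem m Y hY c x (h x hx)
  have hback : BijAt C Prod.fst m0 S → Holds D := by
    intro h x hx
    have h1 := (bij S hS m0).mp h D.one x hx
    rwa [hD.act_one] at h1
  have hall : Holds D → ∀ X : Sch F, FT True X → BijAll C X := fun h X hX =>
    (Pool.Agent.Q193.LT.all_iff hB).mpr
      (fun a b c T => (wg_all hg hC.pair point).mp (hst' h) a b c T) X hX
  have hft : ∀ {m : ℕ} {X : Sch F}, IsQuadratic m X → FT True X := by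
    rintro m X ⟨N, q, _, rfl⟩
    exact ft_aff True
  refine ⟨⟨fun h X hX => hall h X (hft (hL X hX)), fun h => ?_⟩,
    ⟨fun h X hX j _ => ?_, fun h => ?_⟩,
    ⟨fun h X hX => of_built hB (coverings_pair hC) (fun A _ _ _ _ => hall h _ (ft_aff True)) hX,
      fun h => ?_⟩, hall, hlow⟩
  · exact hback ((hall' S).mp (hLS ⟨_, hB⟩ h) m0)
  · obtain ⟨m, hm⟩ := hL' X hX
    exact hall h X (hft hm) j
  · exact hback (hLS' _ (wuni_pair hC.pair graded_weight point) h)
  · refine hback ((hall' S).mp ?_ m0)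
    exact of_affine_dim hB (fun A _ _ _ hA => h _ (.dim A hA)) S hS.ft hn

end pairs

end Pool.Agent.H95.QF
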